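import Pool.Agent.Y627.KW.Tower

/-!
# Power towers of any height with an algebraic base

The problem asks for the nature of `x ^ (x ^ x)` at `x = √2`. For `z` in `ℂ \ (-∞, 0]` let `t_0 = z` and
`t_(i+1) = z ^ (t_i) = exp (t_i log z)`, so `t_1 = z ^ z`, `t_2 = z ^ (z ^ z)`, … . We consider the numbers
`log x_j` and `t_1 (x_j), …, t_m (x_j)`, `1 ≤ j ≤ n`, together with `π`, for `x = (x_1, …, x_n)` in `k ^ n`, `k` any
number field in `ℂ` (for instance `k = ℚ (√2)`, with `x = √2`). We prove that the tuples `x` of height at most `T`, with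
the `x_j` in compact subsets of `ℂ \ (-∞, 0]`, for which these numbers satisfy a relation (even an approximate one) of
degree at most `d` with coefficients in `k` of height at most `T ^ A` lie on at most `C T ^ ε` hypersurfaces of degree at
most `D`. For `n = 1`: for all but `C T ^ ε` numbers `x` of height at most `T` (of about `T ^ (2 [k : ℚ])`) the numbers
`π`, `log x`, `x ^ x`, `x ^ (x ^ x)`, … (`m` towers) satisfy no such relation.

Earlier results of this pool on the problem concern towers of height three with one entry `n` or `n ^ c`, `n` an integer.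

Proof: the general theorem of helper124 in the form of helper771 (`Pool.Agent.Y771.KF.stdK`) reduces this to the algebraic
independence of the functions `log z`, `t_1 (z), …, t_m (z)` over `ℂ (z)`, which follows from their growth on the real
line.
-/

set_option autoImplicit false

namespace Pool.Agent.Results.MP_93d8d2_nt.AlgebraicBases

/-- The power tower of height `i + 1` with all entries `z` (principal values): `tower z 0 = z`,
`tower z (i + 1) = z ^ (tower z i)`. -/
noncomputable def tower (z : ℂ) : ℕ → ℂ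
  | 0 => z
  | i + 1 => Complex.exp (tower z i * Complex.log z)

/-- The `n (m + 1) + 1` numbers `π`, `log x_j` and `tower x_j i`, `1 ≤ i ≤ m` (the index `i : Fin m` stands for
`i + 1`), where `x_j` is read as a complex number by the embedding `σ`. -/
noncomputable def numbers {k : Type} [Field k] (σ : k →+* ℂ) {n : ℕ} (m : ℕ) (x : Fin n → k) :
    Option (Fin n × Option (Fin m)) → ℂ
  | none => (Real.pi : ℂ)
  | some (j, none) => Complex.log (σ (x j))
  | some (j, some i) => tower (σ (x j)) ((i : ℕ) + 1)

/-- The `n`-tuples `x` of elements of `k`, of height at most `T` and with `σ x_j ∈ K_j`, for which some nonzero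
polynomial with coefficients in `k` of height at most `T ^ A`, of degree at most `d` in each variable, takes at the
`n (m + 1) + 1` numbers a value of absolute value at most `T ^ (-B)`. -/
def Exceptional {k : Type} [Field k] [NumberField k] (σ : k →+* ℂ) {n : ℕ} (m d : ℕ) (K : Fin n → Set ℂ)
    (A B T : ℝ) : Set (Fin n → k) :=
  {x | (∀ j, σ (x j) ∈ K j ∧ Height.mulHeight₁ (x j) ≤ T) ∧
    ∃ P : MvPolynomial (Option (Fin n × Option (Fin m))) k, P ≠ 0 ∧ (∀ i, P.degreeOf i ≤ d) ∧
      (∀ e, Height.mulHeight₁ (P.coeff e) ≤ T ^ A) ∧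
      ‖MvPolynomial.eval₂ σ (numbers σ m x) P‖ ≤ T ^ (-B)}

/-- Let `k` be a number field with an embedding `σ` in `ℂ`, let `n ≥ 1`, `m` and `d` be integers and `K_1, …, K_n`
compact subsets of `ℂ \ (-∞, 0]`. For all `A` and `ε > 0` there are `D`, `B` and `C` such that for all `T ≥ 1` the
exceptional `n`-tuples are zeros of at most `C T ^ ε` nonzero polynomials of degree at most `D`, and their number is at
most `C T ^ ε N (T) ^ (n - 1)`, where `N (T)` is the number of elements of `k` of height at most `T`. The towers are the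
complex powers: `tower z (i + 1) = z ^ (tower z i)`, and for `z = √2` the number `tower z 2` is the number `w` of the
problem. -/
theorem result :
    (∀ (k : Type) [Field k] [NumberField k] (σ : k →+* ℂ) (n m d : ℕ), 1 ≤ n →
      ∀ K : Fin n → Set ℂ, (∀ j, IsCompact (K j)) → (∀ j, K j ⊆ Complex.slitPlane) → ∀ A ε : ℝ, 0 < ε →
      ∃ (D : ℕ) (B C : ℝ), ∀ T : ℝ, 1 ≤ T →
        (∃ Φ : Finset (MvPolynomial (Fin n) k), (Φ.card : ℝ) ≤ C * T ^ ε ∧
          (∀ R ∈ Φ, R ≠ 0 ∧ R.totalDegree ≤ D) ∧
          ∀ x ∈ Exceptional σ m d K A B T, ∃ R ∈ Φ, MvPolynomial.eval x R = 0) ∧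
        (Exceptional σ m d K A B T).Finite ∧
        ((Exceptional σ m d K A B T).ncard : ℝ) ≤
          C * T ^ ε * ({x : k | Height.mulHeight₁ x ≤ T}.ncard : ℝ) ^ (n - 1)) ∧
    (∀ (z : ℂ) (i : ℕ), z ≠ 0 → tower z (i + 1) = z ^ (tower z i)) ∧
    tower ((√2 : ℝ) : ℂ) 2 = (((√2 : ℝ) ^ ((√2 : ℝ) ^ (√2 : ℝ)) : ℝ) : ℂ) := by
  have hpow : ∀ (z : ℂ) (i : ℕ), z ≠ 0 → tower z (i + 1) = z ^ (tower z i) := by
    intro z i hz
    rw [Complex.cpow_def_of_ne_zero hz, tower, mul_comm]
  refine ⟨?_, hpow, ?_⟩
  · intro k _ _ σ n m d hn K hK hKs A ε hε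
    obtain ⟨D, B, C, h⟩ := Pool.Agent.Y627.KW.main σ n d hn
      (fun (_ : Fin n) (i : Option (Fin m)) (z : ℂ) =>
        i.elim (Complex.log z) fun k => Pool.Agent.Y627.KW.tw z ((k : ℕ) + 1))
      (fun _ => Complex.slitPlane) K
      (fun _ => (Complex.starConvex_one_slitPlane.isPathConnected Complex.one_mem_slitPlane).isConnected.isPreconnected)
      hK hKs (fun _ y z hz => by
        rcases y with _ | y
        · exact analyticAt_clog hz
        · exact Pool.Agent.Y627.KW.tw_an _ hz) (fun _ => Pool.Agent.Y627.KW.ut_indep m) A ε hε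
    refine ⟨D, B, C, fun T hT => ?_⟩
    have htw : ∀ (z : ℂ) (i : ℕ), tower z i = Pool.Agent.Y627.KW.tw z i := by
      intro z i
      induction i with
      | zero => rfl
      | succ i ih => rw [tower, Pool.Agent.Y627.KW.tw, ih]
    have hset : Exceptional σ m d K A B T = Pool.Agent.Y627.KW.ExcW σ d
        (fun (_ : Fin n) (i : Option (Fin m)) (z : ℂ) =>
          i.elim (Complex.log z) fun k => Pool.Agent.Y627.KW.tw z ((k : ℕ) + 1)) K A B T := by
      have heq : ∀ x : Fin n → k, numbers σ m x = Pool.Agent.Y627.KW.numW σ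
          (fun (_ : Fin n) (i : Option (Fin m)) (z : ℂ) =>
            i.elim (Complex.log z) fun k => Pool.Agent.Y627.KW.tw z ((k : ℕ) + 1)) x := by
        intro x
        funext i
        rcases i with _ | ⟨j, _ | i⟩
        · rfl
        · rfl
        · exact htw _ _
      ext x
      simp only [Exceptional, Pool.Agent.Y627.KW.ExcW, Set.mem_ofPred_eq, heq]
    rw [hset]
    exact h T hT
  · have h2 : (0 : ℝ) < √2 := by positivity
    have h2' : ((√2 : ℝ) : ℂ) ≠ 0 := by exact_mod_cast h2.ne'
    have h1 : tower ((√2 : ℝ) : ℂ) 1 = (((√2 : ℝ) ^ (√2 : ℝ) : ℝ) : ℂ) := by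
      rw [hpow _ 0 h2', Complex.ofReal_cpow h2.le]
      rfl
    rw [hpow _ 1 h2', h1]
    exact (Complex.ofReal_cpow h2.le _).symm

end Pool.Agent.Results.MP_93d8d2_nt.AlgebraicBases
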