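import Mathlib
import Pool.Agent.Y918.RP.Final

/-!
# Random towers of powers with algebraic bases

The numbers `z = √2 ^ √2`, `w = √2 ^ z`, … are the values of the tower `T_0 = z`,
`T_{j+1} = √2 ^ T_j`.  We consider random perturbations of such towers.  Let `α_j = exp λ_j` be
algebraic numbers, where `λ_j ≠ 0`, let `t` be a transcendental number (for instance `√2 ^ √2`), and
let

  `T_0 = t`,  `T_{j+1} = exp (R_j (T_0, …, T_j)) * α_j ^ P_j (T_{c_j})`  for `j < n`,

where `c_j ≤ j`, the functions `R_j` are fixed but arbitrary, for instance `R_j = λ_j T_j`, and the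
`P_j` are random polynomials of degree less than `k` with coefficients in a finite set `A` of rational
numbers.  Here `α_j ^ x = exp (λ_j x)`.  For all `n`, `D` and `N` there are `k₀`, `C` and `δ > 0` such
that for all `k ≥ k₀` and every space `W` of dimension at most `N` over the field of algebraic numbers,
for instance the space spanned by the powers `t ^ i`, `i ≤ D`, the numbers `T_1, …, T_n` satisfy no
nonzero polynomial relation with coefficients in `W` of degree at most `D` in each variable, for all
but `C |A|^(n k - δ k)` of the `|A|^(n k)` tuples `(P_0, …, P_{n-1})`.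

The proof.  A step of the tower is a random walk on a multiplicative cube.  By the multiplicative cube
theorem a cube `ζ + ∑_{g ∈ S} w_g` of dimension `G` contains a number `z` such that `exp z` satisfies no
relation of degree at most `D` over `W`, if all `exp w_g` are transcendental.  By the six exponentials
theorem, applied to `1, T` and to the numbers `λ Q(T)`, the rational polynomials `Q` of degree less than
`M` for which `exp (λ T^a Q(T))` is algebraic form a space of dimension at most `(M + 3) / 2`.  So the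
bad polynomials contain no cube whose generators lie outside these spaces, and an iterated
Cauchy-Schwarz inequality shows that they are exponentially rare (`Pool.Agent.Y918.RP.stepX`).  The
numbers already constructed are adjoined to `W` (`Pool.Agent.Y918.RP.processF`).
-/

set_option autoImplicit false

namespace Pool.Agent.Results.MP_93d8d2_nt.RandomTowersOverBases

/-- `T_0 = t` and `T_{j+1} = exp (R_j (T_0, …, T_j) + λ_j P_j (T_{c_j}))`, where `P_j` is the
polynomial with the coefficients `P j i`. -/
def IsTower {n k : ℕ} (lam : Fin n → ℂ) (c : Fin n → ℕ) (R : (j : Fin n) → (Fin (j + 1) → ℂ) → ℂ)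
    (t : ℂ) (P : Fin n → Fin k → ℚ) (T : ℕ → ℂ) : Prop :=
  T 0 = t ∧ ∀ j : Fin n, T (j + 1) = Complex.exp (R j (fun i => T i) +
    lam j * ∑ i : Fin k, (P j i : ℂ) * T (c j) ^ (i : ℕ))

/-- The numbers `x_i` satisfy a nonzero polynomial relation with coefficients in `W`, of degree at
most `D` in each of them. -/
def Related (W : Submodule (algebraicClosure ℚ ℂ) ℂ) (D : ℕ) {m : ℕ} (x : Fin m → ℂ) : Prop :=
  ∃ p : MvPolynomial (Fin m) ℂ, p ≠ 0 ∧ (∀ M, p.coeff M ∈ W) ∧ (∀ i, p.degreeOf i ≤ D) ∧
    MvPolynomial.eval x p = 0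

open Classical in
/-- **Main result.** -/
theorem result (n D N : ℕ) : ∃ (k₀ C : ℕ) (δ : ℝ), 0 < δ ∧ ∀ k ≥ k₀, ∀ A : Finset ℚ, A.Nonempty →
    ∀ W : Submodule (algebraicClosure ℚ ℂ) ℂ, Module.Finite (algebraicClosure ℚ ℂ) W →
    Module.finrank (algebraicClosure ℚ ℂ) W ≤ N →
    ∀ (lam : Fin n → ℂ), (∀ j, lam j ≠ 0 ∧ IsAlgebraic ℚ (Complex.exp (lam j))) →
    ∀ (c : Fin n → ℕ), (∀ j, c j ≤ j) → ∀ (R : (j : Fin n) → (Fin (j + 1) → ℂ) → ℂ)
      (t : ℂ), Transcendental ℚ t →
    (((Fintype.piFinset fun _ : Fin n => Fintype.piFinset fun _ : Fin k => A).filter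
      (fun P : Fin n → Fin k → ℚ => ∃ T : ℕ → ℂ, IsTower lam c R t P T ∧
        Related W D (fun j : Fin n => T (j + 1)))).card : ℝ) ≤
      C * (A.card : ℝ) ^ ((n * k : ℝ) - δ * k) := by
  obtain ⟨k₀, C, δ, hδ, _, h⟩ := Pool.Agent.Y918.RP.towersF D n N
  refine ⟨k₀, C, δ, hδ, fun k hk A hA W hW hWN lam hlam c hc R t ht => ?_⟩
  refine le_trans ?_ (h k hk A hA W hW hWN t ht
    (fun j s p => Complex.exp (R j (fun i => s i) +
      lam j * ∑ i : Fin k, (p i : ℂ) * s (c j) ^ (i : ℕ))) ?_)
  · apply Nat.cast_le.2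
    apply Finset.card_le_card
    intro P hP
    rw [Finset.mem_filter] at hP ⊢
    obtain ⟨hPA, T, ⟨hT0, hT⟩, hR⟩ := hP
    refine ⟨hPA, T, hT0, fun j => ?_, hR⟩
    have h1 : ∀ i : ℕ, i ≤ (j : ℕ) → Pool.Agent.Y918.RP.upTo T j i = T i := fun i hi => if_pos hi
    have h2 : (fun i : Fin (j + 1) => Pool.Agent.Y918.RP.upTo T j i) = fun i : Fin (j + 1) => T i :=
      funext fun i => h1 i (by omega)
    rw [hT j, h2, h1 (c j) (hc j)]
  · intro j s hs
    exact Pool.Agent.Y918.RP.fine_pow (hs (c j) (hc j)) (hlam j).1 _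

end Pool.Agent.Results.MP_93d8d2_nt.RandomTowersOverBases
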