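import Pool.Agent.Results.MP_93d8d2_nt.AlgebraicBases
import Pool.Agent.Y854.GM.FamW

/-!
# Power towers over all elements of a number field with height in windows

Let `k` be a number field in `ℂ` (embedding `σ`, for instance `k = ℚ(√2)`), `H` the height on `k`, `v ≥ 1` a sequence with
exponent of convergence at most `τ` (for `v_j = j ^ q` this is `1 / q`, for `v_j = q ^ j` or `j!` it is `0`) and `θ < 1`. For
all `α > 0` outside a set of Hausdorff dimension at most `τ / (1 - θ)`, all `R`, `m`, `d`, `A` there is `B` such that for all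
but finitely many `j` and ALL `x` in `k` with `|σ x| ≤ R`, `dist (σ x, (-∞, 0]) ≥ 1 / (R + 1)` and `|H(x) - α v_j| ≤ v_j ^ θ`
the numbers `π`, `log x`, `x ^ x`, `x ^ (x ^ x)`, … (`m` towers) satisfy `|P(π, log x, x ^ x, …)| > H(x) ^ (-B)` for all
nonzero polynomials `P` over `k` of degree at most `d` in each variable with coefficients of height at most `H(x) ^ A`.
-/

set_option autoImplicit false

open Filter Topology
open scoped ENNReal

namespace Pool.Agent.Results.MP_93d8d2_nt.TowerWindows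

open AlgebraicBases (tower numbers Exceptional)

/-- the exponent of convergence of the sequence `v` is at most `τ` -/
def ExpLe (v : ℕ → ℝ) (τ : ℝ) : Prop := ∀ t : ℝ, τ < t → Summable (fun n : ℕ => (v n) ^ (-t))

lemma pow_aux {A B B' n N : ℝ} (hA : 0 ≤ A) (hB : B ≤ B') (hB' : 0 ≤ B') (hn : 1 ≤ n) (hnN : n ≤ N)
    (hN : N ≤ n ^ 2) : n ^ A ≤ N ^ A ∧ n ^ (-(2 * B')) ≤ N ^ (-B) := by
  have hN1 : 1 ≤ N := hn.trans hnN
  refine ⟨Real.rpow_le_rpow (by linarith) hnN hA, ?_⟩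
  calc n ^ (-(2 * B')) = (n ^ 2) ^ (-B') := by
        rw [← Real.rpow_natCast, ← Real.rpow_mul (by linarith)]
        congr 1
        push_cast
        ring
    _ ≤ N ^ (-B') := Real.rpow_le_rpow_of_nonpos (by linarith) hN (by linarith)
    _ ≤ N ^ (-B) := Real.rpow_le_rpow_of_exponent_le hN1 (by linarith)

lemma exceptional_mono {k : Type} [Field k] [NumberField k] (σ : k →+* ℂ) (m d : ℕ) (K : Fin 1 → Set ℂ) (A : ℕ)
    (B B' n N : ℝ) (x : Fin 1 → k) (hB : B ≤ B') (hB' : 0 ≤ B') (hn : 1 ≤ n) (hnN : n ≤ N) (hN : N ≤ n ^ 2)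
    (h : x ∈ Exceptional σ m d K (A : ℝ) (2 * B') n) : x ∈ Exceptional σ m d K (A : ℝ) B N := by
  obtain ⟨e1, e2⟩ := pow_aux (Nat.cast_nonneg A) hB hB' hn hnN hN
  obtain ⟨h0, P, h1, h2, h3, h4⟩ := h
  exact ⟨fun j => ⟨(h0 j).1, (h0 j).2.trans hnN⟩, P, h1, h2, fun e => (h3 e).trans e1, h4.trans e2⟩

/-- the part of the disc of radius `R` at distance at least `1 / (R + 1)` from `(-∞, 0]` -/
def Region (R : ℕ) : Set ℂ := {z | ‖z‖ ≤ R ∧ 1 / ((R : ℝ) + 1) ≤ Metric.infDist z Complex.slitPlaneᶜ}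

lemma region_compact (R : ℕ) : IsCompact (Region R) := by
  have h : Region R = Metric.closedBall (0 : ℂ) (R : ℝ) ∩ {z | 1 / ((R : ℝ) + 1) ≤ Metric.infDist z Complex.slitPlaneᶜ} := by
    ext z
    simp [Region]
  rw [h]
  exact (isCompact_closedBall _ _).inter_right (isClosed_le continuous_const (Metric.continuous_infDist_pt _))

lemma region_subset (R : ℕ) : Region R ⊆ Complex.slitPlane := by
  rintro z ⟨-, h⟩
  by_contra hz
  have h1 : Metric.infDist z Complex.slitPlaneᶜ = 0 := Metric.infDist_zero_of_mem hz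
  rw [h1] at h
  have h2 : 0 < 1 / ((R : ℝ) + 1) := by positivity
  linarith

/-- **Theorem.** Let `v ≥ 1` be a sequence of exponent of convergence at most `τ ≥ 0`, `θ < 1` and `k` a number field with an
embedding `σ` in `ℂ`. There is a set `E` of Hausdorff dimension at most `τ / (1 - θ)` such that for each `α > 0` outside `E`
and all `R`, `m`, `d`, `A` there are `B` and `j₀` such that for all `j ≥ j₀` and ALL `x` in `k` with `|σ x| ≤ R`, distance of
`σ x` from `(-∞, 0]` at least `1 / (R + 1)` and `|H(x) - α v_j| ≤ v_j ^ θ`, `H` the height, every nonzero polynomial `P` over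
`k` of degree at most `d` in each variable with coefficients of height at most `H(x) ^ A` satisfies
`|P(π, log x, x ^ x, x ^ (x ^ x), …)| > H(x) ^ (-B)` (`m` towers). The sequences `v_j = (j + 1) ^ q` and `v_j = q ^ j` have
exponent of convergence at most `1 / q` and `0`. -/
theorem result :
    (∀ (v : ℕ → ℝ) (τ θ : ℝ), (∀ n, 1 ≤ v n) → 0 ≤ τ → ExpLe v τ → θ < 1 →
      ∀ (k : Type) [Field k] [NumberField k] (σ : k →+* ℂ),
      ∃ E : Set ℝ, dimH E ≤ ENNReal.ofReal (τ / (1 - θ)) ∧ ∀ α : ℝ, 0 < α → α ∉ E → ∀ R m d A : ℕ,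
        ∃ (B : ℝ) (j₀ : ℕ), ∀ j : ℕ, j₀ ≤ j → ∀ x : k, σ x ∈ Region R → |Height.mulHeight₁ x - α * v j| ≤ (v j) ^ θ →
          ∀ P : MvPolynomial (Option (Fin 1 × Option (Fin m))) k, P ≠ 0 → (∀ i, P.degreeOf i ≤ d) →
            (∀ e, Height.mulHeight₁ (P.coeff e) ≤ (Height.mulHeight₁ x) ^ A) →
            (Height.mulHeight₁ x) ^ (-B) < ‖MvPolynomial.eval₂ σ (numbers σ m (fun _ : Fin 1 => x)) P‖) ∧
    (∀ q : ℝ, 0 < q → ExpLe (fun n : ℕ => ((n : ℝ) + 1) ^ q) (1 / q)) ∧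
    (∀ q : ℝ, 1 < q → ExpLe (fun n : ℕ => q ^ n) 0) := by
  refine ⟨fun v τ θ hv hτ hE hθ1 k _ _ σ => ?_,
    fun κ hκ => Pool.Agent.Y854.GM.expLe_pow κ hκ, fun κ hκ => Pool.Agent.Y854.GM.expLe_geom κ hκ⟩
  have hall : ∀ c : ℕ × ℕ × ℕ × ℕ, _ := fun c => Pool.Agent.Y854.GM.fam_windows
    (fun x : Fin 1 → k => Height.mulHeight₁ (x 0))
    (fun B N => Exceptional σ c.2.1 c.2.2.1 (fun _ : Fin 1 => Region c.1) (c.2.2.2 : ℝ) B N)
    (fun ε hε => by
      obtain ⟨D, B, C, h⟩ := AlgebraicBases.result.1 k σ 1 c.2.1 c.2.2.1 le_rfl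
        (fun _ : Fin 1 => Region c.1) (fun _ => region_compact _) (fun _ => region_subset _) (c.2.2.2 : ℝ) ε hε
      refine ⟨B, C, fun N hN => ⟨(h N hN).2.1, (h N hN).2.2.trans (le_of_eq ?_)⟩⟩
      rw [Nat.sub_self, pow_zero, mul_one])
    (fun B B' n N x hB hB' hn hnN hN h => exceptional_mono σ c.2.1 c.2.2.1 _ c.2.2.2 B B' n N x hB hB' hn hnN hN h)
    hv hτ hE hθ1
  choose E hE1 hE2 using hall
  refine ⟨⋃ c, E c, ?_, fun α hα hαE R m d A => ?_⟩
  · rw [dimH_iUnion]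
    exact iSup_le hE1
  · rw [Set.mem_iUnion] at hαE
    push Not at hαE
    obtain ⟨B, j₀, hj⟩ := hE2 (R, m, d, A) α hα (hαE (R, m, d, A))
    refine ⟨B, j₀, fun j hj1 x hx hw P hP0 hPd hPc => ?_⟩
    by_contra hcon
    rw [not_lt] at hcon
    exact hj j hj1 (fun _ => x) hw ⟨fun _ => ⟨hx, le_rfl⟩, P, hP0, hPd, fun e => by
      rw [Real.rpow_natCast]
      exact hPc e, hcon⟩

end Pool.Agent.Results.MP_93d8d2_nt.TowerWindows
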